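import Pool.Agent.Helper57.HS.GoalsG

/-! # HS: ITER, the iteration in the step of the continuity method -/

open Complex Metric Set Filter Topology MeasureTheory
open scoped ContDiff ComplexConjugate ComplexOrder Manifold Matrix

namespace Pool.Agent.Helper34.HS

open Pool.Agent.Helper95.Lin Pool.Agent.Helper16.Abund Pool.Agent.Helper92.Orb Pool.Agent.Helper10.SP
  Pool.Agent.Helper95.RK Pool.Agent.Helper57.HS

universe u

/-! ## Elementary facts on the Hölder bounds -/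

lemma CB.nonneg_of_mem {n : ℕ} {E : Type*} [NormedAddCommGroup E] {a K : ℝ} {S : Set (Cn n)}
    {f : Cn n → E} (h : CB a S K f) {x : Cn n} (hx : x ∈ S) : 0 ≤ K :=
  (norm_nonneg _).trans (h.1 x hx)

lemma CB.mono {n : ℕ} {E : Type*} [NormedAddCommGroup E] {a K L : ℝ} {S : Set (Cn n)}
    {f : Cn n → E} (h : CB a S K f) (hKL : K ≤ L) : CB a S L f := by
  refine ⟨fun x hx => (h.1 x hx).trans hKL, fun x hx y hy => (h.2 x hx y hy).trans ?_⟩
  exact mul_le_mul_of_nonneg_right hKL (Real.rpow_nonneg (norm_nonneg _) _)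

lemma CB.zero {n : ℕ} {E : Type*} [NormedAddCommGroup E] {a K : ℝ} {S : Set (Cn n)} (hK : 0 ≤ K) :
    CB a S K (fun _ : Cn n => (0 : E)) := by
  refine ⟨fun x _ => by simpa using hK, fun x _ y _ => ?_⟩
  simpa using mul_nonneg hK (Real.rpow_nonneg (norm_nonneg _) _)

lemma CB.sub {n : ℕ} {E : Type*} [NormedAddCommGroup E] {a K L : ℝ} {S : Set (Cn n)}
    {f g : Cn n → E} (h : CB a S K f) (h' : CB a S L g) :
    CB a S (K + L) (fun x => f x - g x) := by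
  refine ⟨fun x hx => (norm_sub_le _ _).trans (add_le_add (h.1 x hx) (h'.1 x hx)),
    fun x hx y hy => ?_⟩
  have e : (f x - g x) - (f y - g y) = (f x - f y) - (g x - g y) := by abel
  rw [e, add_mul]
  exact (norm_sub_le _ _).trans (add_le_add (h.2 x hx y hy) (h'.2 x hx y hy))

lemma CB.neg {n : ℕ} {E : Type*} [NormedAddCommGroup E] {a K : ℝ} {S : Set (Cn n)}
    {f : Cn n → E} (h : CB a S K f) : CB a S K (fun x => - f x) := by
  refine ⟨fun x hx => by rw [norm_neg]; exact h.1 x hx, fun x hx y hy => ?_⟩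
  have e : (- f x) - (- f y) = -(f x - f y) := by abel
  rw [e, norm_neg]
  exact h.2 x hx y hy

lemma CB.const_mul {n : ℕ} {a K c : ℝ} {S : Set (Cn n)} {f : Cn n → ℝ} (h : CB a S K f) :
    CB a S (|c| * K) (fun x => c * f x) := by
  refine ⟨fun x hx => ?_, fun x hx y hy => ?_⟩
  · rw [norm_mul, Real.norm_eq_abs c]
    exact mul_le_mul_of_nonneg_left (h.1 x hx) (abs_nonneg _)
  · rw [← mul_sub, norm_mul, Real.norm_eq_abs c, mul_assoc]
    exact mul_le_mul_of_nonneg_left (h.2 x hx y hy) (abs_nonneg _)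

lemma CB.congr {n : ℕ} {E : Type*} [NormedAddCommGroup E] {a K : ℝ} {S : Set (Cn n)}
    {f g : Cn n → E} (h : CB a S K f) (hfg : ∀ x ∈ S, g x = f x) : CB a S K g := by
  refine ⟨fun x hx => by rw [hfg x hx]; exact h.1 x hx, fun x hx y hy => ?_⟩
  rw [hfg x hx, hfg y hy]
  exact h.2 x hx y hy

lemma C2B.mono {n : ℕ} {a K L : ℝ} {S : Set (Cn n)}
    {f : Cn n → ℝ} (h : C2B a S K f) (hKL : K ≤ L) : C2B a S L f :=
  ⟨fun x hx => ⟨(h.1 x hx).1.trans hKL, (h.1 x hx).2.trans hKL⟩, CB.mono h.2 hKL⟩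

lemma D2_zero {n : ℕ} : D2 (fun _ : Cn n => (0 : ℝ)) = fun _ => 0 := by
  funext x
  have h : fderiv ℝ (fun _ : Cn n => (0 : ℝ)) = fun _ => 0 := by
    funext y; simp
  unfold D2
  rw [h]
  simp

lemma C2B.zero {n : ℕ} {a K : ℝ} {S : Set (Cn n)} (hK : 0 ≤ K) :
    C2B a S K (fun _ : Cn n => (0 : ℝ)) := by
  refine ⟨fun x _ => ⟨by simpa using hK, by simpa using hK⟩, ?_⟩
  rw [D2_zero]
  exact CB.zero hK

/-- A smooth function is bounded and Hölder on compact sets. -/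
lemma exists_CB {n : ℕ} {T C : Set (Cn n)} (hT : IsOpen T) (hCT : C ⊆ T) (hC : IsCompact C)
    {a : ℝ} (ha : 0 < a) (ha1 : a < 1) {g : Cn n → ℝ} (hg : ContDiffOn ℝ ∞ g T) :
    ∃ M : ℝ, 0 ≤ M ∧ CB a C M g := by
  have hlip : LocallyLipschitzOn C g := by
    intro x hx
    have hx' : T ∈ 𝓝 x := hT.mem_nhds (hCT hx)
    have h1 : ContDiffAt ℝ 1 g x := (hg.contDiffAt hx').of_le (by exact_mod_cast le_top)
    obtain ⟨K, t, ht, hK⟩ := h1.exists_lipschitzOnWith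
    exact ⟨K, t, mem_nhdsWithin_of_mem_nhds ht, hK⟩
  obtain ⟨L, hL⟩ := hlip.exists_lipschitzOnWith_of_compact hC
  obtain ⟨B, hB⟩ := hC.exists_bound_of_continuousOn (hg.continuousOn.mono hCT)
  refine ⟨|B| + (L : ℝ) + 2 * |B|, by positivity, ?_, ?_⟩
  · intro x hx
    have h1 := (hB x hx).trans (le_abs_self B)
    have h2 : 0 ≤ (L : ℝ) := L.2
    have h3 := abs_nonneg B
    linarith
  · intro x hx y hy
    have h2 : 0 ≤ (L : ℝ) := L.2
    have h3 := abs_nonneg B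
    rcases le_total ‖x - y‖ 1 with h | h
    · have h4 : ‖g x - g y‖ ≤ L * ‖x - y‖ := by
        have := hL.dist_le_mul x hx y hy
        rwa [dist_eq_norm, dist_eq_norm] at this
      have h5 : ‖x - y‖ ≤ ‖x - y‖ ^ a := by
        have := Real.rpow_le_rpow_of_exponent_ge' (norm_nonneg (x - y)) h ha.le ha1.le
        simpa using this
      calc ‖g x - g y‖ ≤ L * ‖x - y‖ := h4
        _ ≤ L * ‖x - y‖ ^ a := mul_le_mul_of_nonneg_left h5 h2
        _ ≤ (|B| + (L : ℝ) + 2 * |B|) * ‖x - y‖ ^ a :=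
          mul_le_mul_of_nonneg_right (by linarith) (Real.rpow_nonneg (norm_nonneg _) _)
    · have h5 : 1 ≤ ‖x - y‖ ^ a := Real.one_le_rpow h ha.le
      have h6 : ‖g x - g y‖ ≤ 2 * |B| := by
        have h7 := (hB x hx).trans (le_abs_self B)
        have h8 := (hB y hy).trans (le_abs_self B)
        linarith [norm_sub_le (g x) (g y)]
      calc ‖g x - g y‖ ≤ 2 * |B| := h6
        _ ≤ |B| + (L : ℝ) + 2 * |B| := by linarith
        _ ≤ (|B| + (L : ℝ) + 2 * |B|) * ‖x - y‖ ^ a :=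
          le_mul_of_one_le_right (by positivity) h5

/-! ## The Levi matrix of a difference -/

lemma cd_sub' {n : ℕ} (l : Fin n) {f g : Cn n → ℂ} {x : Cn n} (hf : DifferentiableAt ℝ f x)
    (hg : DifferentiableAt ℝ g x) : cd l (fun y => f y - g y) x = cd l f x - cd l g x := by
  unfold cd
  rw [fderiv_fun_sub hf hg]
  simp only [sub_apply]
  ring

lemma cdb_sub' {n : ℕ} (l : Fin n) {f g : Cn n → ℂ} {x : Cn n} (hf : DifferentiableAt ℝ f x)
    (hg : DifferentiableAt ℝ g x) : cdb l (fun y => f y - g y) x = cdb l f x - cdb l g x := by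
  unfold cdb
  rw [fderiv_fun_sub hf hg]
  simp only [sub_apply]
  ring

lemma LM_zero {n : ℕ} (x : Cn n) : LM (fun _ : Cn n => (0 : ℝ)) x = 0 := by
  ext j k
  have h : (cdb k fun _ : Cn n => ((0 : ℝ) : ℂ)) = fun _ => 0 := by
    funext y
    unfold cdb
    simp
  simp only [LM, Matrix.of_apply, Matrix.zero_apply]
  rw [h]
  unfold cd
  simp

lemma differentiableAt_cdb {n : ℕ} {T : Set (Cn n)} (hT : IsOpen T) {v : Cn n → ℝ}
    (hv : ContDiffOn ℝ ∞ v T) (k : Fin n) {x : Cn n} (hx : x ∈ T) :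
    DifferentiableAt ℝ (cdb k fun y => ((v y : ℝ) : ℂ)) x := by
  have h1 : ContDiffAt ℝ ∞ (fun y => ((v y : ℝ) : ℂ)) x :=
    Complex.ofRealCLM.contDiff.contDiffAt.comp x (hv.contDiffAt (hT.mem_nhds hx))
  have h2 : ContDiffAt ℝ ∞ (fderiv ℝ (fun y => ((v y : ℝ) : ℂ))) x :=
    h1.fderiv_right (by simp)
  have h3 : DifferentiableAt ℝ (fderiv ℝ (fun y => ((v y : ℝ) : ℂ))) x :=
    h2.differentiableAt (by simp)
  unfold cdb
  exact (h3.clm_apply (differentiableAt_const _)).add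
    ((differentiableAt_const _).mul (h3.clm_apply (differentiableAt_const _)))

lemma LM_sub {n : ℕ} {T : Set (Cn n)} (hT : IsOpen T) {v w : Cn n → ℝ}
    (hv : ContDiffOn ℝ ∞ v T) (hw : ContDiffOn ℝ ∞ w T) {x : Cn n} (hx : x ∈ T) :
    LM (fun y => v y - w y) x = LM v x - LM w x := by
  ext j k
  simp only [LM, Matrix.of_apply, Matrix.sub_apply]
  have hd : ∀ {f : Cn n → ℝ}, ContDiffOn ℝ ∞ f T → ∀ y ∈ T,
      DifferentiableAt ℝ (fun z => ((f z : ℝ) : ℂ)) y := by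
    intro f hf y hy
    exact Complex.ofRealCLM.differentiableAt.comp y
      ((hf.contDiffAt (hT.mem_nhds hy)).differentiableAt (by simp))
  have h1 : (cdb k fun y => (((v y - w y : ℝ)) : ℂ)) =ᶠ[𝓝 x]
      fun y => cdb k (fun y => ((v y : ℝ) : ℂ)) y - cdb k (fun y => ((w y : ℝ) : ℂ)) y := by
    filter_upwards [hT.mem_nhds hx] with y hy
    rw [← cdb_sub' k (hd hv y hy) (hd hw y hy)]
    simp
  have h2 : cd j (cdb k fun y => (((v y - w y : ℝ)) : ℂ)) x =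
      cd j (fun y => cdb k (fun y => ((v y : ℝ) : ℂ)) y - cdb k (fun y => ((w y : ℝ) : ℂ)) y) x := by
    unfold cd
    rw [h1.fderiv_eq]
  rw [h2, cd_sub' j (differentiableAt_cdb hT hv k hx) (differentiableAt_cdb hT hw k hx)]

lemma trL_sub_re {n : ℕ} {T : Set (Cn n)} (hT : IsOpen T) (Q : Cn n → Matrix (Fin n) (Fin n) ℂ)
    {v w : Cn n → ℝ} (hv : ContDiffOn ℝ ∞ v T) (hw : ContDiffOn ℝ ∞ w T) {x : Cn n} (hx : x ∈ T) :
    (trL Q (fun y => v y - w y) x).re = (trL Q v x).re - (trL Q w x).re := by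
  unfold trL
  rw [LM_sub hT hv hw hx, Matrix.mul_sub, Matrix.trace_sub, Complex.sub_re]

lemma InvF.sub {n : ℕ} {T : Set (Cn n)} {G : Type u} {R : G → Cn n → Cn n → Prop}
    {f g : Cn n → ℝ} (hf : InvF T R f) (hg : InvF T R g) : InvF T R (fun x => f x - g x) :=
  ⟨hf.1.sub hg.1, fun γ x y h => by simp only [hf.2 γ x y h, hg.2 γ x y h]⟩

lemma InvF.const_mul {n : ℕ} {T : Set (Cn n)} {G : Type u} {R : G → Cn n → Cn n → Prop}
    {f : Cn n → ℝ} (hf : InvF T R f) (c : ℝ) : InvF T R (fun x => c * f x) :=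
  ⟨contDiffOn_const.mul hf.1, fun γ x y h => by simp only [hf.2 γ x y h]⟩

lemma InvF.zero {n : ℕ} {T : Set (Cn n)} {G : Type u} {R : G → Cn n → Cn n → Prop} :
    InvF T R (fun _ => 0) := ⟨contDiffOn_const, fun _ _ _ _ => rfl⟩

/-- ITER. -/
theorem iter (hFUNN : S_FUNN.{u}) (hLSOL : S_LSOL.{u}) (hLINE : S_LINE.{u}) (hNONL : S_NONL.{u}) :
    S_ITER.{u} := by
  intro n T G _ R hEt
  obtain ⟨C₁, hC₁, -⟩ := hFUNN T R hEt ∅ (empty_subset _) isCompact_empty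
  obtain ⟨C', hC'T, hC'c, hC₁C', hL⟩ := hLINE T R hEt C₁ hC₁
  have hsub : C₁ ⊆ C' := hC₁C'.trans interior_subset
  refine ⟨C₁, C', hC₁, hC'T, hC'c, hsub, ?_⟩
  intro a lam A₀ ha ha1 hlam hlam1 hA₀ g hg
  obtain ⟨K₁, hK₁, hL⟩ := hL a lam A₀ ha ha1 hlam hA₀
  obtain ⟨ρ₀, hρ₀, K₂, hK₂, hN⟩ :=
    hNONL T R hEt C₁ hC₁ C' hC'T hC'c hsub a lam A₀ ha ha1 hlam hlam1 hA₀
  obtain ⟨Mg, hMg, hgM⟩ := exists_CB hEt.isOpen hC'T hC'c ha ha1 hg.1
  set ρ : ℝ := min ρ₀ (1 / (2 * K₁ * K₂)) with hρdef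
  have hρ : 0 < ρ := lt_min hρ₀ (by positivity)
  have hρ1 : ρ ≤ ρ₀ := min_le_left _ _
  have hρ2 : K₁ * K₂ * ρ ≤ 1 / 2 := by
    have h1 : ρ ≤ 1 / (2 * K₁ * K₂) := min_le_right _ _
    calc K₁ * K₂ * ρ ≤ K₁ * K₂ * (1 / (2 * K₁ * K₂)) :=
          mul_le_mul_of_nonneg_left h1 (by positivity)
      _ = 1 / 2 := by field_simp
  set δ : ℝ := ρ / (2 * K₁ * (Mg + 1)) with hδdef
  have hδ : 0 < δ := by positivity
  have hδ2 : K₁ * (δ * Mg) ≤ ρ / 2 := by
    have h1 : K₁ * (δ * Mg) ≤ K₁ * (δ * (Mg + 1)) := by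
      apply mul_le_mul_of_nonneg_left _ hK₁.le
      exact mul_le_mul_of_nonneg_left (by linarith) hδ.le
    have h2 : K₁ * (δ * (Mg + 1)) = ρ / 2 := by
      rw [hδdef]; field_simp
    linarith
  refine ⟨δ, hδ, ?_⟩
  intro Q hQ s hs
  -- the right side
  set Fs : (Cn n → ℝ) → Cn n → ℝ := fun v x => s * g x - qq Q (LM v) x with hFs
  have hN' := hN Q hQ
  have h0C2 : ∀ v : Cn n → ℝ, C2B a C₁ 0 (fun x => v x - v x) := by
    intro v
    have : (fun x => v x - v x) = fun _ : Cn n => (0 : ℝ) := by funext x; simp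
    rw [this]
    exact C2B.zero le_rfl
  have hFinv : ∀ v, InvF T R v → C2B a C₁ ρ v → InvF T R (Fs v) := by
    intro v hv hvρ
    have h := hN' v v ρ 0 hv hv hρ1 hvρ hvρ (h0C2 v)
    exact InvF.sub (InvF.const_mul hg s) h.2.2.1
  have hqq0 : ∀ x, qq Q (LM (fun _ : Cn n => (0 : ℝ))) x = 0 := by
    intro x
    unfold qq
    rw [LM_zero]
    simp
  have hFCB : ∀ v, InvF T R v → C2B a C₁ ρ v → CB a C' (δ * Mg + K₂ * ρ * ρ) (Fs v) := by
    intro v hv hvρ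
    have h0 : C2B a C₁ ρ (fun _ : Cn n => (0 : ℝ)) := C2B.zero hρ.le
    have h := hN' v (fun _ => 0) ρ ρ hv InvF.zero hρ1 hvρ h0 (by simpa using hvρ)
    have h1 : CB a C' (K₂ * ρ * ρ) (qq Q (LM v)) := by
      refine CB.congr h.2.2.2 fun x _ => ?_
      rw [hqq0 x, sub_zero]
    have h2 : CB a C' (δ * Mg) (fun x => s * g x) :=
      CB.mono (CB.const_mul hgM) (mul_le_mul_of_nonneg_right hs hMg)
    exact CB.sub h2 h1
  have hbound : K₁ * (δ * Mg + K₂ * ρ * ρ) ≤ ρ := by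
    have : K₁ * (δ * Mg + K₂ * ρ * ρ) = K₁ * (δ * Mg) + (K₁ * K₂ * ρ) * ρ := by ring
    rw [this]
    nlinarith
  -- one step
  have hstep : ∀ v : {v : Cn n → ℝ // InvF T R v ∧ C2B a C₁ ρ v},
      ∃ w : {v : Cn n → ℝ // InvF T R v ∧ C2B a C₁ ρ v},
        ∀ x ∈ T, (trL Q w.1 x).re - w.1 x = Fs v.1 x := by
    intro v
    have hF := hFinv v.1 v.2.1 v.2.2
    obtain ⟨w, hw, hweq⟩ := hLSOL T R Q hQ.ket (Fs v.1) hF
    have h1 := hL Q hQ w (Fs v.1) hw hF hweq _ (hFCB v.1 v.2.1 v.2.2)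
    exact ⟨⟨w, hw, C2B.mono h1 hbound⟩, hweq⟩
  choose nxt hnxt using hstep
  let v0 : {v : Cn n → ℝ // InvF T R v ∧ C2B a C₁ ρ v} :=
    ⟨fun _ => 0, InvF.zero, C2B.zero hρ.le⟩
  let V : ℕ → {v : Cn n → ℝ // InvF T R v ∧ C2B a C₁ ρ v} :=
    fun j => Nat.rec v0 (fun _ v => nxt v) j
  have hV0 : ∀ x, (V 0).1 x = 0 := fun x => rfl
  have hVs : ∀ j, V (j + 1) = nxt (V j) := fun j => rfl
  have heq : ∀ j, ∀ x ∈ T, (trL Q (V (j + 1)).1 x).re - (V (j + 1)).1 x = Fs (V j).1 x := by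
    intro j x hx
    rw [hVs]
    exact hnxt (V j) x hx
  have hdiff : ∀ j, C2B a C₁ (ρ * (1 / 2) ^ j) (fun x => (V (j + 1)).1 x - (V j).1 x) := by
    intro j
    induction j with
    | zero =>
      have e : (fun x => (V (0 + 1)).1 x - (V 0).1 x) = (V (0 + 1)).1 := by
        funext x
        rw [hV0 x, sub_zero]
      rw [e]
      simpa using (V (0 + 1)).2.2
    | succ j ih =>
      set t : ℝ := ρ * (1 / 2) ^ j with ht
      have h := hN' (V (j + 1)).1 (V j).1 ρ t (V (j + 1)).2.1 (V j).2.1 hρ1 (V (j + 1)).2.2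
        (V j).2.2 ih
      have hw : InvF T R (fun x => (V (j + 1 + 1)).1 x - (V (j + 1)).1 x) :=
        InvF.sub (V (j + 1 + 1)).2.1 (V (j + 1)).2.1
      have hF : InvF T R (fun x => Fs (V (j + 1)).1 x - Fs (V j).1 x) :=
        InvF.sub (hFinv _ (V (j + 1)).2.1 (V (j + 1)).2.2) (hFinv _ (V j).2.1 (V j).2.2)
      have hFe : ∀ x, Fs (V (j + 1)).1 x - Fs (V j).1 x =
          -(qq Q (LM (V (j + 1)).1) x - qq Q (LM (V j).1) x) := by
        intro x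
        simp only [hFs]
        ring
      have h1 := hL Q hQ (fun x => (V (j + 1 + 1)).1 x - (V (j + 1)).1 x)
        (fun x => Fs (V (j + 1)).1 x - Fs (V j).1 x) hw hF (by
          intro x hx
          rw [trL_sub_re hEt.isOpen Q (V (j + 1 + 1)).2.1.1 (V (j + 1)).2.1.1 hx,
            ← heq (j + 1) x hx, ← heq j x hx]
          ring) (K₂ * ρ * t) (CB.congr (CB.neg h.2.2.2) fun x _ => hFe x)
      refine C2B.mono h1 ?_
      have h2 : 0 ≤ t := by positivity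
      calc K₁ * (K₂ * ρ * t) = (K₁ * K₂ * ρ) * t := by ring
        _ ≤ 1 / 2 * t := mul_le_mul_of_nonneg_right hρ2 h2
        _ = ρ * (1 / 2) ^ (j + 1) := by rw [ht]; ring
  refine ⟨fun j => (V j).1, ρ, fun j => (V j).2.1, hV0, fun j => ⟨heq j, ?_, ?_, hdiff j⟩⟩
  · exact (hN' (V j).1 (V j).1 ρ 0 (V j).2.1 (V j).2.1 hρ1 (V j).2.2 (V j).2.2 (h0C2 _)).1
  · exact (hN' (V j).1 (V j).1 ρ 0 (V j).2.1 (V j).2.1 hρ1 (V j).2.2 (V j).2.2 (h0C2 _)).2.1

end Pool.Agent.Helper34.HS
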