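import Pool.Agent.Helper34.HS.ITER
import Pool.Agent.Helper95.HS.GoalsA

/-! # HS: LINE, the linear estimate -/

open Complex Metric Set Filter Topology MeasureTheory
open scoped ContDiff ComplexConjugate ComplexOrder Manifold Matrix

namespace Pool.Agent.Helper34.HS

open Pool.Agent.Helper95.Lin Pool.Agent.Helper16.Abund Pool.Agent.Helper92.Orb Pool.Agent.Helper10.SP
  Pool.Agent.Helper95.RK Pool.Agent.Helper57.HS Pool.Agent.Helper95.HS

universe u

/-- The trace of the product of two positive semidefinite matrices is nonnegative. -/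
lemma trace_mul_nonneg {n : ℕ} {A B : Matrix (Fin n) (Fin n) ℂ} (hA : A.PosSemidef)
    (hB : B.PosSemidef) : 0 ≤ (Matrix.trace (A * B)).re := by
  obtain ⟨S, hS⟩ : ∃ S : Matrix (Fin n) (Fin n) ℂ, A = Sᴴ * S := by
    open scoped MatrixOrder in
    exact CStarAlgebra.nonneg_iff_eq_star_mul_self.mp hA.nonneg
  have h0 : Matrix.trace (A * B) = Matrix.trace (S * B * Sᴴ) := by
    rw [hS, Matrix.mul_assoc, Matrix.trace_mul_comm Sᴴ, Matrix.mul_assoc]
  have h1 : (S * B * Sᴴ).PosSemidef := hB.mul_mul_conjTranspose_same S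
  rw [h0]
  exact (Complex.le_def.1 h1.trace_nonneg).1

/-- LINE. -/
theorem line (hMAXF : S_MAXF.{u}) (hKETP : Pool.Agent.Helper95.HS.S_KETP.{u}) (hHALG : S_HALG)
    (hSCHG : S_SCHG.{u}) : S_LINE.{u} := by
  intro n T G _ R hEt C₁ hC₁
  obtain ⟨C', hC'T, hC'c, hC₁C', hS⟩ := hSCHG T R hEt C₁ hC₁
  refine ⟨C', hC'T, hC'c, hC₁C', ?_⟩
  intro a lam A₀ ha ha1 hlam hA₀
  obtain ⟨K, hK, hS⟩ := hS a lam (lam⁻¹ + n ^ 2 * A₀ * lam⁻¹ ^ 2) ha ha1 hlam (by positivity)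
  refine ⟨K, hK, ?_⟩
  intro Q hStp v F hv hF heq M hFM
  have hT := hEt.isOpen
  -- the bound of F on T
  have hFT : ∀ x ∈ T, |F x| ≤ M := by
    intro x hx
    obtain ⟨γ, y, hy, hR⟩ := hC₁.2.2 x hx
    have hy' : y ∈ C' := interior_subset (hC₁C' (interior_subset hy))
    rw [← hF.2 γ x y hR]
    exact hFM.1 y hy'
  have hup : ∀ x ∈ T, v x ≤ M := by
    obtain ⟨x₀, hx₀, hmax, hpsd⟩ := hMAXF T R hEt v hv
    have h1 : 0 ≤ (Matrix.trace ((Q x₀)⁻¹ * (- LM v x₀))).re :=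
      trace_mul_nonneg (hStp.ket.posDef x₀ hx₀).inv.posSemidef hpsd
    have h2 : (trL Q v x₀).re ≤ 0 := by
      rw [Matrix.mul_neg, Matrix.trace_neg, Complex.neg_re] at h1
      unfold trL
      linarith
    have h3 := heq x₀ hx₀
    have h4 := (abs_le.1 (hFT x₀ hx₀)).1
    intro x hx
    have := hmax x hx
    linarith
  have hlow : ∀ x ∈ T, -M ≤ v x := by
    have hv' : InvF T R (fun x => (fun _ => (0 : ℝ)) x - v x) := InvF.sub InvF.zero hv
    obtain ⟨x₀, hx₀, hmax, hpsd⟩ := hMAXF T R hEt _ hv'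
    have e : LM (fun x => (fun _ => (0 : ℝ)) x - v x) x₀ = - LM v x₀ := by
      rw [LM_sub hT contDiffOn_const hv.1 hx₀, LM_zero, zero_sub]
    rw [e, neg_neg] at hpsd
    have h1 : 0 ≤ (Matrix.trace ((Q x₀)⁻¹ * (LM v x₀))).re :=
      trace_mul_nonneg (hStp.ket.posDef x₀ hx₀).inv.posSemidef hpsd
    have h3 := heq x₀ hx₀
    have h4 := (abs_le.1 (hFT x₀ hx₀)).2
    have h5 : 0 ≤ (trL Q v x₀).re := h1
    intro x hx
    have := hmax x hx
    simp only [zero_sub] at this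
    linarith
  have hH := (hHALG n a C' ha).2.2 Q lam A₀ hlam hA₀ hStp.ell
  refine hS (fun x => (Q x)⁻¹) hH.2.1 (hH.2.2 fun i j => (hStp.hol i j).2) v hv 1 M (by simp)
    (fun x hx => abs_le.2 ⟨hlow x (hC'T hx), hup x (hC'T hx)⟩) ?_
  have hre : ∀ x ∈ C', Matrix.trace ((Q x)⁻¹ * LM v x) - ((1 * v x : ℝ) : ℂ) = ((F x : ℝ) : ℂ) := by
    intro x hx
    have h1 : (trL Q v x).im = 0 :=
      ((hKETP T R hEt).2.2 Q v hStp.ket hv).2 x (hC'T hx)
    have h2 := heq x (hC'T hx)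
    have h3 : trL Q v x = (((trL Q v x).re : ℝ) : ℂ) := by
      apply Complex.ext
      · simp
      · simp [h1]
    have h4 : Matrix.trace ((Q x)⁻¹ * LM v x) = trL Q v x := rfl
    rw [h4, h3, one_mul, ← h2]
    push_cast
    ring
  refine CB.congr (f := fun x => ((F x : ℝ) : ℂ)) ?_ hre
  refine ⟨fun x hx => ?_, fun x hx y hy => ?_⟩
  · rw [Complex.norm_real]
    exact hFM.1 x hx
  · rw [← Complex.ofReal_sub, Complex.norm_real]
    exact hFM.2 x hx y hy

end Pool.Agent.Helper34.HS
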