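import Pool.Agent.Helper34.HS.ITER
import Pool.Agent.Helper89.HS.CMP

/-! # HS: NONL, the nonlinear term for invariant functions -/

open Complex Metric Set Filter Topology MeasureTheory
open scoped ContDiff ComplexConjugate ComplexOrder Manifold Matrix

namespace Pool.Agent.Helper34.HS

open Pool.Agent.Helper95.Lin Pool.Agent.Helper16.Abund Pool.Agent.Helper92.Orb Pool.Agent.Helper10.SP
  Pool.Agent.Helper95.RK Pool.Agent.Helper57.HS Pool.Agent.Helper95.HS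

universe u

/-- A matrix above a positive multiple of the identity is positive definite. -/
lemma posDef_of_MLe {n : ℕ} {A : Matrix (Fin n) (Fin n) ℂ} {c : ℝ} (hc : 0 < c)
    (h : MLe ((c : ℂ) • 1) A) : A.PosDef := by
  have h1 : ((c : ℂ) • (1 : Matrix (Fin n) (Fin n) ℂ)).PosDef :=
    Matrix.PosDef.one.smul (by exact_mod_cast hc)
  have h2 : A = (A - (c : ℂ) • 1) + (c : ℂ) • 1 := by abel
  rw [h2]
  exact Matrix.PosDef.posSemidef_add h h1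

/-- Positivity is transported by local arrows. -/
lemma posDef_of_arrow {n : ℕ} {G : Type u} {R : G → Cn n → Cn n → Prop}
    {Y : Cn n → Matrix (Fin n) (Fin n) ℂ} (hinv : InvH R Y) {U : Set (Cn n)} {τ : Cn n → Cn n}
    (hA : Arr R U τ) {x : Cn n} (hx : x ∈ U) (hdet : (fderiv ℂ τ x).det ≠ 0)
    (hherm : (Y x).IsHermitian) (hpos : (Y (τ x)).PosDef) : (Y x).PosDef := by
  refine Matrix.PosDef.of_dotProduct_mulVec_pos hherm fun w hw => ?_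
  rw [Pool.Agent.Helper89.HS.star_dot_hermi, ← hinv U τ hA x hx]
  apply Pool.Agent.Helper89.HS.hermi_pos hpos
  intro h0
  have hinj : Function.Injective (fderiv ℂ τ x) := by
    have h1 : IsUnit (LinearMap.det (fderiv ℂ τ x : Cn n →ₗ[ℂ] Cn n)) := isUnit_iff_ne_zero.2 hdet
    exact LinearMap.ker_eq_bot.1 ((LinearMap.isUnit_iff_ker_eq_bot _).1
      ((LinearMap.isUnit_iff_isUnit_det _).2 h1))
  have h2 : star w = 0 := hinj (by rw [h0, map_zero])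
  exact hw (star_eq_zero.1 h2)

/-- NONL. -/
theorem nonl (hKETP : Pool.Agent.Helper95.HS.S_KETP.{u}) (hTRN : S_TRN.{u}) (hLMD2 : S_LMD2)
    (hQEST : S_QEST) : S_NONL.{u} := by
  intro n T G _ R hEt C₁ hC₁ C' hC'T hC'c hsub a lam A₀ ha ha1 hlam hlam1 hA₀
  obtain ⟨KT, hKT, hT⟩ := hTRN T R hEt C₁ hC₁ C' hC'T hC'c a ha ha1.le
  obtain ⟨r₀, hr₀, KQ, hKQ, hQ⟩ := hQEST n a lam A₀ ha hlam hlam1 hA₀
  have hKETP' := hKETP T R hEt
  -- a point of C₁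
  obtain ⟨x₀, hx₀⟩ := hEt.nonempty
  obtain ⟨_, y₀, hy₀, _⟩ := hC₁.2.2 x₀ hx₀
  have hy₀C : y₀ ∈ C₁ := interior_subset hy₀
  refine ⟨r₀ / (4 * KT), by positivity, KQ * (16 * KT ^ 2), by positivity, ?_⟩
  intro Q hStp v v' ρ t hv hv' hρ hvρ hv'ρ hvt
  have hρ0 : 0 ≤ ρ := (norm_nonneg _).trans (hvρ.1 y₀ hy₀C).1
  have ht0 : 0 ≤ t := (norm_nonneg _).trans (hvt.1 y₀ hy₀C).1
  have hv2 : ContDiffOn ℝ 2 v T := hv.1.of_le (WithTop.coe_le_coe.2 (le_top : (2 : ℕ∞) ≤ ⊤))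
  have hv'2 : ContDiffOn ℝ 2 v' T := hv'.1.of_le (WithTop.coe_le_coe.2 (le_top : (2 : ℕ∞) ≤ ⊤))
  have hd := InvF.sub hv hv'
  have hd2 : ContDiffOn ℝ 2 (fun x => v x - v' x) T := hd.1.of_le (WithTop.coe_le_coe.2 (le_top : (2 : ℕ∞) ≤ ⊤))
  have h1 : ∀ j k, CB a C' (4 * (KT * ρ)) fun x => LM v x j k :=
    (hLMD2 T v hEt.isOpen hv2).2.1 a _ C' hC'T (hT v hv2 hv.2 ρ hvρ).2
  have h2 : ∀ j k, CB a C' (4 * (KT * ρ)) fun x => LM v' x j k :=
    (hLMD2 T v' hEt.isOpen hv'2).2.1 a _ C' hC'T (hT v' hv'2 hv'.2 ρ hv'ρ).2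
  have h3 : ∀ j k, CB a C' (4 * (KT * t)) fun x => LM (fun x => v x - v' x) x j k :=
    (hLMD2 T _ hEt.isOpen hd2).2.1 a _ C' hC'T (hT _ hd2 hd.2 t hvt).2
  have hr : 4 * (KT * ρ) ≤ r₀ := by
    have : 4 * (KT * ρ) ≤ 4 * (KT * (r₀ / (4 * KT))) := by
      apply mul_le_mul_of_nonneg_left _ (by norm_num)
      exact mul_le_mul_of_nonneg_left hρ hKT.le
    have e : 4 * (KT * (r₀ / (4 * KT))) = r₀ := by field_simp
    linarith
  have hq := hQ C' Q (LM v) (LM v') (4 * (KT * ρ)) (4 * (KT * t)) hStp.ell hStp.hol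
    (fun x hx => ⟨((hLMD2 T v hEt.isOpen hv2).1 x (hC'T hx)).1,
      ((hLMD2 T v' hEt.isOpen hv'2).1 x (hC'T hx)).1⟩) (by positivity) hr (by positivity)
    (fun i j => ⟨h1 i j, h2 i j, CB.congr (h3 i j) fun x hx => by
      rw [LM_sub hEt.isOpen hv.1 hv'.1 (hC'T hx)]; rfl⟩)
  have hQK : KEt T R Q := hStp.ket
  have hQchf := (hKETP'.2.1 Q Q hQK hQK).2
  have hY := hKETP'.1 Q v hQchf.1 hQchf.2 hv
  have hpos : ∀ x ∈ T, (pert Q v x).PosDef := by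
    intro x hx
    obtain ⟨γ, y, hy, hR⟩ := hC₁.2.2 x hx
    have hyC' : y ∈ C' := hsub (interior_subset hy)
    obtain ⟨τ, U, W, hU, hW, hxU, hyW, hUT, hWT, hdiff, hinj, hmaps, hdet, hiff⟩ :=
      hEt.loc γ x y hR
    have hArr : Arr R U τ := ⟨hU, hdiff, γ, fun x' hx' =>
      (hiff x' hx' (τ x') (hmaps hx')).2 rfl⟩
    have hτx : τ x = y := ((hiff x hxU y hyW).1 hR).symm
    refine posDef_of_arrow hY.2.1 hArr hxU (hdet x hxU) (hY.1.herm x hx) ?_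
    rw [hτx]
    exact posDef_of_MLe (half_pos hlam) (hq.1 y hyC').1
  refine ⟨hpos, hq.1, ?_, ?_⟩
  · have hK := hY.2.2 hpos
    have e1 := (hKETP'.2.1 Q (pert Q v) hQK hK).1
    have e2 := (hKETP'.2.2 Q v hQK hv).1
    exact InvF.sub e1 e2
  · refine CB.mono hq.2 (le_of_eq ?_)
    ring

end Pool.Agent.Helper34.HS
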